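import Pool.Agent.D0H44.DM.Eqv3

set_option autoImplicit false

/-!
# Moments of zeta along almost every arithmetic progression

The question Q1 of `MP_07318d_nt` asks for `∫_0^T |ζ(1/2 + it)|^(2k) dt = ∫_0^T P_k(log (t/2π)) dt + O(T^(1/2 + ε))`. Here we study the
discrete form, with the points `α n + β`, `n ≤ N`, in place of all `t ≤ α N`. For almost every `α > 0` and EVERY `β`
(for instance `β = 0`):

* the discrete `2k`-th moment is `1/α` times the continuous one, up to `O(N^(A/2 + ε))`, if `A` is an exponent of the `4k`-th moment;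
  unconditionally `A = (2k + 1)/3`, so the remainder is `O(N^(1/2 + ε))` for `k = 1` and `O(N^(5/6 + ε))` for `k = 2`;
* the formula of Q1 for `k` with a remainder `O(T^(θ + ε))`, `θ ≥ A/2`, is EQUIVALENT to its discrete form for almost every `α` and
  every `β`, with the same polynomial and the same remainder; the discrete form for one `β` and all `α` in some set which is not
  null is enough. For `θ = 1/2` (Q1) this needs the conjectural exponent `A = 1` of the `4k`-th moment (true for `k = 1`); for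
  `θ ≥ (2k + 1)/6` it is unconditional.

Proof. Let `g` be a nonnegative function on an interval, and `D` the difference of `∑_n g(α n + β)` and `(1/α) ∫ g`. For fixed `α`
the mean of `D²` over `β` is `∑_{h ∈ ℤ} G(α h) - (1/α) ∫ G` with the correlation `G(w) = ∫ g(v) g(v + w) dv`. The mean over
`a ≤ α ≤ 2a` replaces the sum over `h ≠ 0` by the integral of `G(w)` against the harmonic sum over `w/(2a) ≤ h < w/a`, which is
`log 2 + O(a/w)`, so that only `O(log) ∫ g²` remains. A dyadic decomposition gives the maximum over the end points, and the lemma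
of Borel and Cantelli a bound for almost every `α` (in mean over `β`). This is applied to the positive and negative parts of the derivative of
`f = |ζ(1/2 + i·)|^(2k)`, and summation by parts in `β` gives the bound for every `β`. The moments of `ζ'` are bounded by the moments of `ζ`
(Cauchy's formula in a strip with a Gaussian kernel, and the functional equation).
-/

namespace Pool.Agent.Results.MP_07318d_nt.DiscreteMoments

open MeasureTheory

noncomputable section

/-- `|ζ(1/2 + it)|^(2k)`. -/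
def zetaPow (k : ℕ) (t : ℝ) : ℝ := ‖riemannZeta (1 / 2 + Complex.I * t)‖ ^ (2 * k)

/-- The discrete moment: the sum of `|ζ(1/2 + i(α n + β))|^(2k)` over `1 ≤ n ≤ N`. -/
def discreteMoment (k : ℕ) (α β : ℝ) (N : ℕ) : ℝ := ∑ n ∈ Finset.Icc 1 N, zetaPow k (α * n + β)

/-- `A` is an exponent of the `2m`-th moment: `∫_0^T |ζ(1/2 + it)|^(2m) dt ≤ C T^(A + ε)` for `T ≥ 1`. -/
def MomentExponent (m : ℕ) (A : ℝ) : Prop :=
  ∀ ε : ℝ, 0 < ε → ∃ C : ℝ, ∀ T : ℝ, 1 ≤ T → ∫ t in (0:ℝ)..T, zetaPow m t ≤ C * T ^ (A + ε)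

/-- The main term `∫_0^T P(log (t / 2π)) dt`. -/
def mainTerm (P : Polynomial ℝ) (T : ℝ) : ℝ := ∫ t in (0:ℝ)..T, P.eval (Real.log (t / (2 * Real.pi)))

/-- The formula of Q1 for the `2k`-th moment with the polynomial `P` and the remainder `O(T^(θ + ε))`; in Q1 `θ = 1/2`. -/
def ContinuousForm (k : ℕ) (P : Polynomial ℝ) (θ : ℝ) : Prop :=
  ∀ ε : ℝ, 0 < ε → ∃ C : ℝ, ∀ T : ℝ, 1 ≤ T →
    |(∫ t in (0:ℝ)..T, zetaPow k t) - mainTerm P T| ≤ C * T ^ (θ + ε)

/-- Its discrete form along the progression `α n + β`. -/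
def DiscreteForm (k : ℕ) (P : Polynomial ℝ) (θ α β : ℝ) : Prop :=
  ∀ ε : ℝ, 0 < ε → ∃ C : ℝ, ∀ N : ℕ, 1 ≤ N →
    |discreteMoment k α β N - mainTerm P (α * N) / α| ≤ C * (N : ℝ) ^ (θ + ε)

/-- **Moments of zeta along almost every arithmetic progression.** Let `k ≥ 1`.
(1) For almost every `α > 0` and every `β` the discrete `2k`-th moment is `1/α` times the moment over `[0, α N]`, up to
`O(N^((2k + 1)/6 + ε))`, uniformly for bounded `β`; this is `O(N^(1/2 + ε))` for `k = 1` and `O(N^(5/6 + ε))` for `k = 2`.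
(2) If `A ≥ 1` is an exponent of the `4k`-th moment, the remainder is `O(N^(A/2 + ε))`.
(3) If `A ≥ 1` is an exponent of the `4k`-th moment and `θ ≥ A/2`, then for every polynomial `P` the formula of Q1 with the remainder
`O(T^(θ + ε))` holds for `k` and `P` if and only if its discrete form holds for almost every `α > 0` and every `β`, and if and only if the
set of all `α > 0` for which the discrete form holds for some `β` is not null.
(4) `A = (2k + 1)/3` is an exponent of the `4k`-th moment; so (3) is unconditional for `θ ≥ (2k + 1)/6`, and for `k = 1` also for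
`θ = 1/2`, the case of Q1. -/
theorem result (k : ℕ) (hk : 1 ≤ k) :
    (∀ᵐ α : ℝ, 0 < α → ∀ B ε : ℝ, 0 < ε → ∃ C : ℝ, ∀ β : ℝ, |β| ≤ B → ∀ N : ℕ, 1 ≤ N →
      |discreteMoment k α β N - (∫ t in (0:ℝ)..(α * N), zetaPow k t) / α| ≤ C * (N : ℝ) ^ ((2 * k + 1) / 6 + ε)) ∧
    (∀ A : ℝ, 1 ≤ A → MomentExponent (2 * k) A →
      ∀ᵐ α : ℝ, 0 < α → ∀ B ε : ℝ, 0 < ε → ∃ C : ℝ, ∀ β : ℝ, |β| ≤ B → ∀ N : ℕ, 1 ≤ N →
        |discreteMoment k α β N - (∫ t in (0:ℝ)..(α * N), zetaPow k t) / α| ≤ C * (N : ℝ) ^ (A / 2 + ε)) ∧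
    (∀ A : ℝ, 1 ≤ A → MomentExponent (2 * k) A → ∀ θ : ℝ, A / 2 ≤ θ → ∀ P : Polynomial ℝ,
      (ContinuousForm k P θ ↔ ∀ᵐ α : ℝ, 0 < α → ∀ β : ℝ, DiscreteForm k P θ α β) ∧
      (ContinuousForm k P θ ↔ volume {α : ℝ | 0 < α ∧ ∃ β : ℝ, DiscreteForm k P θ α β} ≠ 0)) ∧
    MomentExponent (2 * k) ((2 * k + 1) / 3) := by
  obtain ⟨h1, h2, -⟩ := Pool.Agent.D0H44.DM.main k hk
  have hk1 : (1:ℝ) ≤ k := by exact_mod_cast hk
  have hA : (1:ℝ) ≤ (2 * k + 1) / 3 := by linarith
  refine ⟨?_, h2, ?_, h1⟩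
  · have h := h2 _ hA h1
    filter_upwards [h] with α hp h0 B ε hε
    obtain ⟨C, hC⟩ := hp h0 B ε hε
    refine ⟨C, fun β hβ N hN => ?_⟩
    have := hC β hβ N hN
    rw [show ((2 * (k:ℝ) + 1) / 3) / 2 = (2 * k + 1) / 6 by ring] at this
    exact this
  · intro A hA1 h θ hθ P
    obtain ⟨a1, a2⟩ := Pool.Agent.D0H44.DM.E3.eqv3 θ A (by linarith) hθ (Pool.Agent.D0H44.DM.zk k) P
      (Pool.Agent.D0H44.DM.zk_cd k hk) (Pool.Agent.D0H44.DM.zk_nonneg k) (Pool.Agent.D0H44.DM.mom_of k A h)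
      (Pool.Agent.D0H44.DM.mom_deriv k hk A hA1 h)
    refine ⟨a1, a2.trans (not_congr ?_)⟩
    rw [ae_iff]
    have e : {α : ℝ | 0 < α ∧ ∃ β : ℝ, DiscreteForm k P θ α β} =
        {α : ℝ | ¬ (0 < α → ∀ β : ℝ, ¬ Pool.Agent.D0H44.DM.E3.DFt θ (Pool.Agent.D0H44.DM.zk k) P α β)} := by
      ext α
      simp only [Set.mem_ofPred_eq, not_forall, not_not, exists_prop]
      rfl
    rw [e]

end

end Pool.Agent.Results.MP_07318d_nt.DiscreteMoments
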