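import Pool.Agent.D0H82.SX.AllW

set_option autoImplicit false

/-!
# The square-root remainder in the shifted moments of the Riemann zeta function is sharp, for every weight

The question Q1 of `MP_07318d_nt` asks for the remainder `O(T ^ (1/2 + ε))` in the `2k`-th moment of zeta on the critical
line. For the shifted moments of every order `2k` the file `SquareRootRemainder` proves the upper bound `S ^ (1/2) T ^ ε` for the
remainder `∫_0^S (Z_γ - Q_γ)`, where `Q_γ` is the full prediction of the recipe of Conrey, Farmer, Keating, Rubinstein and Snaith,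
for almost all shift vectors `γ` in the cube `[0, T] ^ (2k)`. Here we prove that the exponent `1/2` cannot be improved, for any
`k ≥ 2`, and that smooth weights do not help. Let `w` be a function with continuous derivative which is not identically zero on
`[0, 1]`; `w = 1` is the sharp cutoff of the question, a smooth `w` with support in `(0, 1)` is a smooth weight. For the
remainder `R_γ(S) = ∫_0^S w(t/S) (Z_γ(t) - Q_γ(t)) dt` and `T ^ ε ≤ S ≤ T / 24`

* the mean square of `R_γ(S)` over the separated shift vectors (`Separated`: all differences of the coordinates are at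
  least `T ^ (1/2)`; these are almost all vectors of the cube) is between `c S` and `T ^ ε S`, so it is `S ^ (1 + o(1))`;
* `|R_γ(S)|` is at least `c S ^ (1/2)` for a set of shift vectors in the cube of measure at least `T ^ (2k - ε)`.

Proof. The main term without swaps is invariant under the translation of all the shifts, so it does not occur in the difference
`D_γ` of the integrals of `w(t/S) Z_γ(t)` and `w(t/S) Z_γ(t + S)` over `[0, S]`, and the terms with swaps have bounded integrals
(times powers of `log T`) if `γ` is in a box `B` in which the two blocks of shifts are separated (first derivative test). We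
correlate `D_γ` with a sum `P` of characters `∏ n_j ^ (-i α_j) m_j ^ (i β_j)` for which the products of the `n_j` and of the `m_j` are
consecutive integers in a window `[x₁ S, x₂ S]`, with entries `O(S ^ (1/2))`: there are about `S` of them. The coefficient of each
one in `D_γ` is `(m n) ^ (-1/2) S W(Sθ) (1 - exp(i S θ))` up to a small error, with `θ = log (m / n)` and `W` the Fourier transform of
`w` on `[0, 1]`, as the mean value of `ζ(1/2 + iu) n ^ (iu)` over an interval of length proportional to `T` is `n ^ (-1/2)` up to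
`O(T ^ (-1/2) log T)`. By Fourier inversion `W` is not zero on the complement of `2 π ℤ`, and for a suitable window and sign these
coefficients have the exact order of magnitude `1`. The mean square of `P` is `O(S)`, and its fourth moment is `O(T ^ ε S ^ 2)`,
because the characters are so short that their products are still nearly orthogonal. Cauchy's inequality gives the lower bound
for the mean square of `D_γ`, and together with the upper bound for the mean square of the remainder (partial integration and the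
sharp cutoffs) and the fourth moment of `P` the lower bound for the measure.
-/

namespace Pool.Agent.Results.MP_07318d_nt.SharpRemainder

open Complex MeasureTheory Filter

noncomputable section

variable {k : ℕ}

/-- The divisor function `τ_l(n)`: the sum over `d_1 d_2 ⋯ d_k = n` of `∏ j, d_j ^ l_j`. -/
def tau (l : Fin k → ℂ) (n : ℕ) : ℂ :=
  ∑ d ∈ Nat.finMulAntidiag k n, ∏ j, (d j : ℂ) ^ (l j)

/-- The Euler factor of `F(s; a, b)` at the prime `p`. -/
def localFactor (s : ℂ) (a b : Fin k → ℝ) (p : ℕ) : ℂ :=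
  (∏ j, ∏ l, (1 - (p : ℂ) ^ (-(2 * s + I * a j - I * b l)))) *
    ∑' m : ℕ, tau (fun j => I * b j) (p ^ m) * tau (fun j => -(I * a j)) (p ^ m) *
      (p : ℂ) ^ (-(2 * m * s))

/-- The arithmetic factor `F(s; a, b)`, an Euler product. -/
def arithF (s : ℂ) (a b : Fin k → ℝ) : ℂ := ∏' p : Nat.Primes, localFactor s a b p

/-- The diagonal sum `∑ n, τ_{ib}(n) τ_{-ia}(n) n ^ (-2s)`, continued analytically as `F(s; a, b)`
times the product of `k ^ 2` zeta functions. -/
def zetaAB (s : ℂ) (a b : Fin k → ℝ) : ℂ :=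
  arithF s a b * ∏ j, ∏ l, riemannZeta (2 * s + I * a j - I * b l)

/-- The factor `χ` of the functional equation `ζ(s) = χ(s) ζ(1 - s)`. -/
def chi (s : ℂ) : ℂ := (Real.pi : ℂ) ^ (s - 1 / 2) * Gamma ((1 - s) / 2) / Gamma (s / 2)

/-- The shifted product of zeta values, where `γ = (α, β)` is indexed by `Fin k ⊕ Fin k`; for
`γ = 0` it is `|ζ(1/2 + it)| ^ (2k)`. -/
def Z (γ : Fin k ⊕ Fin k → ℝ) (t : ℝ) : ℂ :=
  ∏ j : Fin k, riemannZeta (1 / 2 + I * (t + γ (Sum.inl j))) *
    riemannZeta (1 / 2 - I * (t + γ (Sum.inr j)))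

/-- The `χ`-factor of the term of the recipe that belongs to `π`; `π(γ)` has the coordinates
`γ (π i)`. -/
def G (γ : Fin k ⊕ Fin k → ℝ) (t : ℝ) (π : Equiv.Perm (Fin k ⊕ Fin k)) : ℂ :=
  (∏ j : Fin k, if (π (Sum.inl j)).isRight then chi (1 / 2 - I * t - I * γ (π (Sum.inl j))) else 1) *
  ∏ j : Fin k, if (π (Sum.inr j)).isLeft then chi (1 / 2 + I * t + I * γ (π (Sum.inr j))) else 1

/-- The full prediction of the recipe (all swap terms): the summand depends only on the class of `π`
in `S_{2k} / (S_k × S_k)`, so the sum over the classes is the sum over all `π`, divided by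
`(k!) ^ 2`. -/
def Q (γ : Fin k ⊕ Fin k → ℝ) (t : ℝ) : ℂ :=
  ((Nat.factorial k : ℂ) ^ 2)⁻¹ * ∑ π : Equiv.Perm (Fin k ⊕ Fin k),
    G γ t π * zetaAB (1 / 2) (fun j => γ (π (Sum.inl j))) (fun j => γ (π (Sum.inr j)))

open Pool.Agent.TH612.CF in
lemma zetaAB_eq (a b : Fin k → ℝ) :
    zetaAB (1 / 2) a b = zab (fun j => (a j : ℂ)) (fun j => (b j : ℂ)) := by
  unfold zetaAB zab arithF FH
  congr 1
  · refine tprod_congr fun p => ?_
    unfold localFactor lh lt
    congr 1
    · refine Finset.prod_congr rfl fun j _ => Finset.prod_congr rfl fun l _ => ?_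
      congr 2
      ring
    · refine tsum_congr fun m => ?_
      have hp : ((p : ℕ) : ℂ) ≠ 0 := by exact_mod_cast p.2.ne_zero
      have e : ((p : ℕ) : ℂ) ^ (-(2 * (m : ℂ) * (1 / 2))) = (((p : ℕ) : ℂ) ^ m)⁻¹ := by
        rw [← Complex.cpow_natCast, ← Complex.cpow_neg]
        congr 1; ring
      rw [e]
      rfl
  · refine Finset.prod_congr rfl fun j _ => Finset.prod_congr rfl fun l _ => ?_
    congr 1
    ring

open Pool.Agent.TH612.CF in
lemma Q_eq (γ : Fin k ⊕ Fin k → ℝ) (t : ℝ) :
    Q γ t = ((Nat.factorial k : ℂ) ^ 2)⁻¹ * Qs t (fun i => (γ i : ℂ)) := by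
  unfold Q Qs Rt
  congr 1
  refine Finset.sum_congr rfl fun π _ => ?_
  rw [zetaAB_eq]
  rfl

/-- The remainder `∫_0^S w(t/S) (Z_γ(t) - Q_γ(t)) dt` of the shifted moment with the weight `w`. -/
def remainder (w : ℝ → ℂ) (γ : Fin k ⊕ Fin k → ℝ) (S : ℝ) : ℂ := ∫ t in (0:ℝ)..S, w (t / S) * (Z γ t - Q γ t)

/-- The separated shift vectors in the cube `[0, T] ^ (2k)`. -/
def Separated (k : ℕ) (T : ℝ) : Set (Fin k ⊕ Fin k → ℝ) :=
  {γ | (∀ i, 0 ≤ γ i ∧ γ i ≤ T) ∧ ∀ p q, p ≠ q → T ^ (1 / 2 : ℝ) ≤ |γ p - γ q|}

/-- **The square-root remainder is sharp, for every weight.** For every `k ≥ 2`, every continuously differentiable `w` which is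
not identically zero on `[0, 1]` and every `ε > 0` there are `c > 0` and `T₀` such that for all `T ≥ T₀` and `T ^ ε ≤ S ≤ T / 24`: the
mean square of the remainder over the separated shift vectors is at least `c S T ^ (2k)` and at most `T ^ ε S T ^ (2k)`, and the
remainder is at least `c S ^ (1/2)` for shift vectors of measure at least `T ^ (2k - ε)`. -/
theorem result (k : ℕ) (hk : 2 ≤ k) (w : ℝ → ℂ) (hw : ContDiff ℝ 1 w) (hw0 : ∃ x ∈ Set.Icc (0:ℝ) 1, w x ≠ 0)
    (ε : ℝ) (hε : 0 < ε) :
    (∀ γ : Fin k ⊕ Fin k → ℝ, Continuous fun t : ℝ => Z γ t - Q γ t) ∧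
    ∃ c T₀ : ℝ, 0 < c ∧ ∀ T S : ℝ, T₀ ≤ T → T ^ ε ≤ S → S ≤ T / 24 →
      ENNReal.ofReal (c * S * T ^ (2 * k)) ≤
        ∫⁻ γ in Separated k T, ENNReal.ofReal (‖remainder w γ S‖ ^ 2) ∧
      ∫⁻ γ in Separated k T, ENNReal.ofReal (‖remainder w γ S‖ ^ 2) ≤
        ENNReal.ofReal (T ^ ε * S * T ^ (2 * k)) ∧
      ENNReal.ofReal (T ^ (2 * k - ε : ℝ)) ≤
        volume {γ : Fin k ⊕ Fin k → ℝ | (∀ i, 0 ≤ γ i ∧ γ i ≤ T) ∧ c * S ^ (1 / 2 : ℝ) ≤ ‖remainder w γ S‖} := by
  constructor
  · intro γ
    have h := (Pool.Agent.TH612.GS.Zg_cont γ).sub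
      ((continuous_const (y := ((Nat.factorial k : ℂ) ^ 2)⁻¹)).mul
        (Pool.Agent.TH612.GS.Qs_cont γ))
    refine h.congr fun t => ?_
    rw [Q_eq]
    rfl
  · obtain ⟨c, T₀, hc, hT₀, h⟩ := Pool.Agent.D0H82.SX.all_mainW k w ε hk hw hw0 hε
    refine ⟨c, T₀, hc, fun T S hT hTS hST => ?_⟩
    have e : ∀ γ : Fin k ⊕ Fin k → ℝ, remainder w γ S = Pool.Agent.D0H82.SX.DW w S γ := by
      intro γ
      unfold remainder Pool.Agent.D0H82.SX.DW
      simp only [Q_eq]
      rfl
    have h1 := h T S hT hTS hST
    rw [Pool.Agent.D0H82.SR.restr_Sep] at h1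
    simp only [e]
    rw [Pool.Agent.TH612.GS.vol_cube (T := T) fun γ hγ => hγ.1]
    exact h1

end

end Pool.Agent.Results.MP_07318d_nt.SharpRemainder
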