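import Pool.Agent.D0H82.SR.All

set_option autoImplicit false

/-!
The shifted moments of the Riemann zeta function of every order `2k` follow the full prediction of
the recipe with square-root remainder `S ^ (1/2) T ^ ε`, for all `1 ≤ S ≤ T`, for all shift vectors
in the cube `[0, T] ^ (2k)` outside a set of measure at most `T ^ (2k - ε)`.
-/

namespace Pool.Agent.Results.MP_07318d_nt.SquareRootRemainder

open Complex MeasureTheory Filter

noncomputable section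

variable {k : ℕ}

/-- The divisor function `τ_l(n)`: the sum over `d_1 d_2 ⋯ d_k = n` of `∏ j, d_j ^ l_j`. -/
def tau (l : Fin k → ℂ) (n : ℕ) : ℂ :=
  ∑ d ∈ Nat.finMulAntidiag k n, ∏ j, (d j : ℂ) ^ (l j)

/-- The Euler factor of `F(s; a, b)` at the prime `p`. -/
def localFactor (s : ℂ) (a b : Fin k → ℝ) (p : ℕ) : ℂ :=
  (∏ j, ∏ l, (1 - (p : ℂ) ^ (-(2 * s + I * a j - I * b l)))) *
    ∑' m : ℕ, tau (fun j => I * b j) (p ^ m) * tau (fun j => -(I * a j)) (p ^ m) *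
      (p : ℂ) ^ (-(2 * m * s))

/-- The arithmetic factor `F(s; a, b)`, an Euler product. -/
def arithF (s : ℂ) (a b : Fin k → ℝ) : ℂ := ∏' p : Nat.Primes, localFactor s a b p

/-- The diagonal sum `∑ n, τ_{ib}(n) τ_{-ia}(n) n ^ (-2s)`, continued analytically as `F(s; a, b)`
times the product of `k ^ 2` zeta functions. -/
def zetaAB (s : ℂ) (a b : Fin k → ℝ) : ℂ :=
  arithF s a b * ∏ j, ∏ l, riemannZeta (2 * s + I * a j - I * b l)

/-- The factor `χ` of the functional equation `ζ(s) = χ(s) ζ(1 - s)`. -/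
def chi (s : ℂ) : ℂ := (Real.pi : ℂ) ^ (s - 1 / 2) * Gamma ((1 - s) / 2) / Gamma (s / 2)

/-- The shifted product of zeta values, where `γ = (α, β)` is indexed by `Fin k ⊕ Fin k`; for
`γ = 0` it is `|ζ(1/2 + it)| ^ (2k)`. -/
def Z (γ : Fin k ⊕ Fin k → ℝ) (t : ℝ) : ℂ :=
  ∏ j : Fin k, riemannZeta (1 / 2 + I * (t + γ (Sum.inl j))) *
    riemannZeta (1 / 2 - I * (t + γ (Sum.inr j)))

/-- The `χ`-factor of the term of the recipe that belongs to `π`; `π(γ)` has the coordinates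
`γ (π i)`. -/
def G (γ : Fin k ⊕ Fin k → ℝ) (t : ℝ) (π : Equiv.Perm (Fin k ⊕ Fin k)) : ℂ :=
  (∏ j : Fin k, if (π (Sum.inl j)).isRight then chi (1 / 2 - I * t - I * γ (π (Sum.inl j))) else 1) *
  ∏ j : Fin k, if (π (Sum.inr j)).isLeft then chi (1 / 2 + I * t + I * γ (π (Sum.inr j))) else 1

/-- The full prediction of the recipe (all swap terms): the summand depends only on the class of `π`
in `S_{2k} / (S_k × S_k)`, so the sum over the classes is the sum over all `π`, divided by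
`(k!) ^ 2`. -/
def Q (γ : Fin k ⊕ Fin k → ℝ) (t : ℝ) : ℂ :=
  ((Nat.factorial k : ℂ) ^ 2)⁻¹ * ∑ π : Equiv.Perm (Fin k ⊕ Fin k),
    G γ t π * zetaAB (1 / 2) (fun j => γ (π (Sum.inl j))) (fun j => γ (π (Sum.inr j)))

open Pool.Agent.TH612.CF in
lemma zetaAB_eq (a b : Fin k → ℝ) :
    zetaAB (1 / 2) a b = zab (fun j => (a j : ℂ)) (fun j => (b j : ℂ)) := by
  unfold zetaAB zab arithF FH
  congr 1
  · refine tprod_congr fun p => ?_
    unfold localFactor lh lt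
    congr 1
    · refine Finset.prod_congr rfl fun j _ => Finset.prod_congr rfl fun l _ => ?_
      congr 2
      ring
    · refine tsum_congr fun m => ?_
      have hp : ((p : ℕ) : ℂ) ≠ 0 := by exact_mod_cast p.2.ne_zero
      have e : ((p : ℕ) : ℂ) ^ (-(2 * (m : ℂ) * (1 / 2))) = (((p : ℕ) : ℂ) ^ m)⁻¹ := by
        rw [← Complex.cpow_natCast, ← Complex.cpow_neg]
        congr 1; ring
      rw [e]
      rfl
  · refine Finset.prod_congr rfl fun j _ => Finset.prod_congr rfl fun l _ => ?_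
    congr 1
    ring

open Pool.Agent.TH612.CF in
lemma Q_eq (γ : Fin k ⊕ Fin k → ℝ) (t : ℝ) :
    Q γ t = ((Nat.factorial k : ℂ) ^ 2)⁻¹ * Qs t (fun i => (γ i : ℂ)) := by
  unfold Q Qs Rt
  congr 1
  refine Finset.sum_congr rfl fun π _ => ?_
  rw [zetaAB_eq]
  rfl

/-- Square-root remainder for generic shifts. For every `k` and every `0 < ε < 1/2` there is `T₀`
such that for every `T ≥ T₀` the following holds for all `γ = (α, β)` in the cube `[0, T] ^ (2k)`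
outside a set of measure at most `T ^ (2k - ε)`:
`|∫_0^S (Z_{α, β}(t) - Q_k(t; α, β)) dt| ≤ S ^ (1/2) T ^ ε` for all `1 ≤ S ≤ T`. -/
theorem result (k : ℕ) :
    (∀ γ : Fin k ⊕ Fin k → ℝ, Continuous fun t : ℝ => Z γ t - Q γ t) ∧
    ∀ ε : ℝ, 0 < ε → ε < 1 / 2 → ∃ T₀ : ℝ, ∀ T : ℝ, T₀ ≤ T →
      volume {γ : Fin k ⊕ Fin k → ℝ | (∀ i, 0 ≤ γ i ∧ γ i ≤ T) ∧
        ∃ S : ℝ, 1 ≤ S ∧ S ≤ T ∧
          S ^ (1 / 2 : ℝ) * T ^ ε < ‖∫ t in (0:ℝ)..S, (Z γ t - Q γ t)‖} ≤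
      ENNReal.ofReal (T ^ (2 * k - ε : ℝ)) := by
  constructor
  · intro γ
    have h := (Pool.Agent.TH612.GS.Zg_cont γ).sub
      ((continuous_const (y := ((Nat.factorial k : ℂ) ^ 2)⁻¹)).mul
        (Pool.Agent.TH612.GS.Qs_cont γ))
    refine h.congr fun t => ?_
    rw [Q_eq]
    rfl
  · intro ε hε hε1
    obtain ⟨T₀, h⟩ := Pool.Agent.D0H82.SR.all_main k ε hε hε1
    refine ⟨T₀, fun T hT => ?_⟩
    have e : {γ : Fin k ⊕ Fin k → ℝ | (∀ i, 0 ≤ γ i ∧ γ i ≤ T) ∧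
        ∃ S : ℝ, 1 ≤ S ∧ S ≤ T ∧
          S ^ (1 / 2 : ℝ) * T ^ ε < ‖∫ t in (0:ℝ)..S, (Z γ t - Q γ t)‖} =
        Pool.Agent.D0H82.SR.BadS k T ε := by
      ext γ
      unfold Pool.Agent.D0H82.SR.BadS Pool.Agent.TH612.GS.DD
      simp only [Set.mem_setOf_eq, Q_eq]
      rfl
    rw [e, Pool.Agent.TH612.GS.vol_cube (T := T) fun γ hγ => hγ.1]
    exact h T hT

end

end Pool.Agent.Results.MP_07318d_nt.SquareRootRemainder
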