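import Pool.Agent.D0H82.FB.All

set_option autoImplicit false

/-!
Moments of order `2k` of the Riemann zeta function with up to four FIXED (for instance unshifted)
factors: `ζ(1/2 + it) ^ r` times generic factors on the same side and `k` generic factors on the
other side. The moment over `[0, S]` is `S` times the diagonal term of the recipe, with remainder
`S ^ (1/2) T ^ ε` for `r ≤ 2`, `S ^ (2/3) T ^ ε` for `r = 3` and `S ^ (5/6) T ^ ε` for `r = 4`.
-/

namespace Pool.Agent.Results.MP_07318d_nt.UnshiftedFactors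

open Complex MeasureTheory Filter

noncomputable section

variable {k r l : ℕ}

/-- The divisor function `τ_l(n)`: the sum over `d_1 d_2 ⋯ d_k = n` of `∏ j, d_j ^ l_j`. -/
def tau (l : Fin k → ℂ) (n : ℕ) : ℂ :=
  ∑ d ∈ Nat.finMulAntidiag k n, ∏ j, (d j : ℂ) ^ (l j)

/-- The Euler factor of `F(a, b)` at the prime `p`. -/
def localFactor (a b : Fin k → ℝ) (p : ℕ) : ℂ :=
  (∏ j, ∏ l, (1 - (p : ℂ) ^ (-(1 + I * a j - I * b l)))) *
    ∑' m : ℕ, tau (fun j => I * b j) (p ^ m) * tau (fun j => -(I * a j)) (p ^ m) *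
      (p : ℂ) ^ (-(m : ℂ))

/-- The arithmetic factor `F(a, b)`, an Euler product. -/
def arithF (a b : Fin k → ℝ) : ℂ := ∏' p : Nat.Primes, localFactor a b p

/-- The diagonal term of the recipe: the sum `∑ n, τ_{ib}(n) τ_{-ia}(n) n ^ (-s)`, continued
analytically to `s = 1` as `F(a, b)` times the product of `k ^ 2` zeta functions. -/
def diag (a b : Fin k → ℝ) : ℂ :=
  arithF a b * ∏ j, ∏ l, riemannZeta (1 + I * a j - I * b l)

/-- The product of `r` factors with the fixed shifts `a` and `l` factors with the shifts `x` on one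
side, and `r + l` factors with the shifts `b` on the other side. -/
def M (a : Fin r → ℝ) (x : Fin l → ℝ) (b : Fin (r + l) → ℝ) (t : ℝ) : ℂ :=
  (∏ j, riemannZeta (1 / 2 + I * (t + a j))) * (∏ j, riemannZeta (1 / 2 + I * (t + x j))) *
    ∏ j, riemannZeta (1 / 2 - I * (t + b j))

/-- The exponent of the remainder: `1/2` for `r ≤ 2`, `2/3` for `r = 3`, `5/6` for `r = 4`. -/
def expo (r : ℕ) : ℝ := max (1 / 2) ((r + 1) / 6)

open Pool.Agent.TH612.CF in
lemma diag_eq (a b : Fin k → ℝ) :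
    diag a b = zab (fun j => (a j : ℂ)) (fun j => (b j : ℂ)) := by
  unfold diag zab arithF FH
  congr 1
  refine tprod_congr fun p => ?_
  unfold localFactor lh lt
  congr 1
  refine tsum_congr fun m => ?_
  have e : ((p : ℕ) : ℂ) ^ (-(m : ℂ)) = (((p : ℕ) : ℂ) ^ m)⁻¹ := by
    rw [Complex.cpow_neg, Complex.cpow_natCast]
  rw [e]
  rfl

open Pool.Agent.TH612.CF Pool.Agent.TH612.GS in
lemma M_eq (a : Fin r → ℝ) (x : Fin l → ℝ) (b : Fin (r + l) → ℝ) (t : ℝ) :
    M a x b t = Zg (gab (Fin.append a x) b) t := by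
  have h1 : ∀ y : ℝ, (starRingEnd ℂ) (z y) = riemannZeta (1 / 2 - I * y) := by
    intro y
    unfold z
    rw [← riemannZeta_conj]
    congr 1
    simp only [map_add, map_div₀, map_one, map_ofNat, map_mul, Complex.conj_I, Complex.conj_ofReal]
    ring
  rw [Zg_AA, Pool.Agent.D0H82.FB.AA_append]
  unfold M AA
  simp only [h1]
  unfold z
  push_cast
  rfl

lemma expo_eq (hr0 : 1 ≤ r) (hr : r ≤ 4) : expo r = Pool.Agent.D0H82.FB.er r / 2 := by
  unfold expo Pool.Agent.D0H82.FB.er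
  interval_cases r <;> norm_num

/-- For every `1 ≤ r ≤ 4`, every `l`, all fixed real `a_1, …, a_r` (for instance all `0`) and every
`0 < ε < 1/2` there is `T₀` such that for all `T ≥ T₀` and `1 ≤ S ≤ T`: for all
`(x, b) ∈ [0, T] ^ l × [0, T] ^ (r + l)` outside a set of measure at most `T ^ (r + 2 l - ε)`,
`|∫_0^S M(t; a, x, b) dt - S diag((a, x), b)| ≤ S ^ (expo r) T ^ ε`. -/
theorem result (r l : ℕ) (hr0 : 1 ≤ r) (hr : r ≤ 4) (a : Fin r → ℝ) :
    (∀ (x : Fin l → ℝ) (b : Fin (r + l) → ℝ), Continuous (M a x b)) ∧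
    ∀ ε : ℝ, 0 < ε → ε < 1 / 2 → ∃ T₀ : ℝ, ∀ T : ℝ, T₀ ≤ T → ∀ S : ℝ, 1 ≤ S → S ≤ T →
      volume {p : (Fin l → ℝ) × (Fin (r + l) → ℝ) |
        (∀ i, 0 ≤ p.1 i ∧ p.1 i ≤ T) ∧ (∀ i, 0 ≤ p.2 i ∧ p.2 i ≤ T) ∧
        S ^ expo r * T ^ ε <
          ‖(∫ t in (0:ℝ)..S, M a p.1 p.2 t) - S * diag (Fin.append a p.1) p.2‖} ≤
      ENNReal.ofReal (T ^ (r + 2 * l - ε : ℝ)) := by
  constructor
  · intro x b
    have h := Pool.Agent.TH612.GS.Zg_cont (Pool.Agent.TH612.GS.gab (Fin.append a x) b)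
    exact h.congr fun t => (M_eq a x b t).symm
  · intro ε hε hε1
    obtain ⟨T₀, h⟩ := Pool.Agent.D0H82.FB.all_main l hr0 hr a hε hε1
    refine ⟨T₀, fun T hT S hS hST => ?_⟩
    refine le_trans (le_of_eq ?_) (h T hT S hS hST)
    congr 1
    unfold Pool.Agent.D0H82.FB.BadF Pool.Agent.D0H82.FB.Dx
    simp only [M_eq, diag_eq, expo_eq hr0 hr]

end

end Pool.Agent.Results.MP_07318d_nt.UnshiftedFactors
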